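import Pool.Agent.H13.SR.Count

/-!
# SETH for resolution with linearly many repetitions

For some unsatisfiable `k`-CNF formulas on `n` variables, all (dag-like) resolution refutations in
which at most `ρ n` steps of each path from the root resolve on a variable resolved on before on this
path have size at least `2 ^ ((1 - ε) n)`, `ε = 150 (log₂ k)⁴ / k + 15 √(ρ (log₂ k)⁵ / k)`. More
generally this is true if every path can be cut into few pieces in each of which few variables are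
resolved on again.
-/

open Finset Pool.Agent.H73.Xor Pool.Agent.H21.SR Pool.Agent.H13.SR

namespace Pool.Agent.H13.Old.LinearDepthSETH

/-- On every path from the root, at most `d` steps resolve on a variable which has been resolved on
before on this path: the length of the path is at most the number of its distinct variables
plus `d`. -/
def Repeats {n N : ℕ} {F : CNF n} (π : Refutation F N) (d : ℝ) : Prop :=
  ∀ (t : Fin N) (l : List (Fin n)), π.Path π.root t l → (l.length : ℝ) ≤ l.toFinset.card + d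

/-- Every path from the root can be cut into at most `r` consecutive pieces such that each piece
contains at most `h` distinct variables which are resolved on at least twice on the path up to the
end of the piece. -/
def Pieces {n N : ℕ} {F : CNF n} (π : Refutation F N) (r h : ℕ) : Prop :=
  ∀ (t : Fin N) (l : List (Fin n)), π.Path π.root t l → Cut r h l

/-- the loss in the exponent for `ρ n` repetitions -/
noncomputable def eps (k : ℕ) (ρ : ℝ) : ℝ :=
  150 * Real.logb 2 k ^ 4 / k + 15 * √(ρ * Real.logb 2 k ^ 5 / k)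

/-- the loss per piece -/
noncomputable def delta (k : ℕ) : ℝ := 160 * Real.logb 2 k ^ 3 / k

lemma logb_ge {k a : ℕ} (hk : 0 < k) (h : 2 ^ a ≤ k) : (a : ℝ) ≤ Real.logb 2 k := by
  rw [Real.le_logb_iff_rpow_le (by norm_num) (by exact_mod_cast hk), Real.rpow_natCast]
  exact_mod_cast h

lemma delta_ge {k : ℕ} (hk2 : 2 ≤ k) (hk : k < 2 ^ 20) : 1 ≤ delta k := by
  have hkpos : (0 : ℝ) < k := by exact_mod_cast (by omega : 0 < k)
  unfold delta
  rw [le_div_iff₀ hkpos, one_mul]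
  have key : ∀ a : ℕ, 2 ^ a ≤ k → (k : ℝ) ≤ 160 * (a : ℝ) ^ 3 →
      (k : ℝ) ≤ 160 * Real.logb 2 k ^ 3 := by
    intro a h1 h2
    refine h2.trans ?_
    have := logb_ge (by omega) h1
    gcongr
  rcases le_or_gt k 160 with h | h
  · exact key 1 (by omega) (by
      have : (k : ℝ) ≤ 160 := by exact_mod_cast h
      norm_num; linarith)
  · rcases le_or_gt k 54880 with h' | h'
    · exact key 7 (by omega) (by
        have : (k : ℝ) ≤ 54880 := by exact_mod_cast h'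
        norm_num; linarith)
    · rcases le_or_gt k 540000 with h'' | h''
      · exact key 15 (by omega) (by
          have : (k : ℝ) ≤ 540000 := by exact_mod_cast h''
          norm_num; linarith)
      · exact key 19 (by omega) (by
          have : (k : ℝ) ≤ 1048576 := by exact_mod_cast hk.le
          norm_num; linarith)

lemma eps_ge {k : ℕ} (hk2 : 2 ≤ k) (hk : k < 2 ^ 20) (ρ : ℝ) : 1 ≤ eps k ρ := by
  have hkpos : (0 : ℝ) < k := by exact_mod_cast (by omega : 0 < k)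
  have h0 : 0 ≤ 15 * √(ρ * Real.logb 2 k ^ 5 / k) := by positivity
  have h1 : 1 ≤ 150 * Real.logb 2 k ^ 4 / k := by
    rw [le_div_iff₀ hkpos, one_mul]
    have key : ∀ a : ℕ, 2 ^ a ≤ k → (k : ℝ) ≤ 150 * (a : ℝ) ^ 4 →
        (k : ℝ) ≤ 150 * Real.logb 2 k ^ 4 := by
      intro a h1 h2
      refine h2.trans ?_
      have := logb_ge (by omega) h1
      gcongr
    rcases le_or_gt k 150 with h | h
    · exact key 1 (by omega) (by
        have : (k : ℝ) ≤ 150 := by exact_mod_cast h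
        norm_num; linarith)
    · rcases le_or_gt k 360150 with h' | h'
      · exact key 7 (by omega) (by
          have : (k : ℝ) ≤ 360150 := by exact_mod_cast h'
          norm_num; linarith)
      · exact key 18 (by omega) (by
          have : (k : ℝ) ≤ 1048576 := by exact_mod_cast hk.le
          norm_num; linarith)
  unfold eps
  linarith

lemma aux_bud {ℓ m : ℝ} (hℓ : 21 ≤ ℓ) (hm : 1 ≤ m) :
    40 * ℓ ^ 3 * m + (5 * (ℓ * (2 * ℓ + 1)) + 1) * m + 1 ≤ 41 * ℓ ^ 3 * m := by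
  have h1 : (5 * (ℓ * (2 * ℓ + 1)) + 1) + 1 ≤ ℓ ^ 3 := by
    nlinarith [mul_nonneg (sub_nonneg.2 hℓ) (sub_nonneg.2 hℓ), mul_self_nonneg ℓ]
  have h2 : ((5 * (ℓ * (2 * ℓ + 1)) + 1) + 1) * m ≤ ℓ ^ 3 * m := by gcongr
  nlinarith

lemma aux_q {s s0 wp a h : ℝ} (hs : 0 ≤ s) (hs0 : 0 ≤ s0) (hs2 : s * s = a * wp) (hws : wp < s)
    (hh : s0 + s < h + 1) : (a + s0) * wp ≤ s * (h + 1) := by
  have h3 : s0 * wp ≤ s0 * s := mul_le_mul_of_nonneg_left hws.le hs0
  have h4 : s * (s0 + s) ≤ s * (h + 1) := mul_le_mul_of_nonneg_left hh.le hs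
  nlinarith

lemma aux_sy {n y : ℝ} : 40 * n ^ 2 * y ^ 2 ≤ (633 / 100 * (n * y)) ^ 2 := by
  have : 0 ≤ n ^ 2 * y ^ 2 := by positivity
  nlinarith

lemma aux_one {n g : ℕ} :
    (1 + 1 / 2 ^ g : ℝ) ^ n ≤ (2 : ℝ) ^ (3 / 2 * (1 / 2 ^ g) * n : ℝ) := by
  have h1 : (1 + 1 / 2 ^ g : ℝ) ≤ Real.exp (1 / 2 ^ g) := by
    have := Real.add_one_le_exp (1 / 2 ^ g : ℝ)
    linarith
  calc (1 + 1 / 2 ^ g : ℝ) ^ n ≤ (Real.exp (1 / 2 ^ g)) ^ n :=
        pow_le_pow_left₀ (by positivity) h1 n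
    _ = Real.exp (n * (1 / 2 ^ g)) := by rw [← Real.exp_nat_mul]
    _ ≤ (2 : ℝ) ^ (3 / 2 * (1 / 2 ^ g) * n : ℝ) := by
        rw [Real.rpow_def_of_pos (by norm_num)]
        apply Real.exp_le_exp.2
        have h5 := Real.log_two_gt_d9
        have h6 : (0 : ℝ) ≤ n * (1 / 2 ^ g) := by positivity
        nlinarith

/-- the arithmetic of the bound for repetitions -/
lemma arith {n ℓ s T y κ E1 E2 : ℝ} (hn : 0 ≤ n) (hℓ : 21 ≤ ℓ) (hs : s ≤ 633 / 100 * (n * y))
    {z : ℝ} (hT : T ≤ 2 * s + 123 * z) (hE2 : 1266 / 100 * (ℓ * y) ≤ E2)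
    (hE1 : 123 * (ℓ * z) + 3 / 2 * κ * n ≤ E1 * n) :
    ℓ * T + 3 / 2 * κ * n ≤ (E1 + E2) * n := by
  have h1 : ℓ * T ≤ ℓ * (2 * s + 123 * z) := mul_le_mul_of_nonneg_left hT (by linarith)
  have h2 : ℓ * s ≤ ℓ * (633 / 100 * (n * y)) := mul_le_mul_of_nonneg_left hs (by linarith)
  have h3 : 1266 / 100 * (ℓ * y) * n ≤ E2 * n := mul_le_mul_of_nonneg_right hE2 hn
  nlinarith

/-- the main part: large `k` -/
theorem main {k : ℕ} (hk : 2 ^ 20 ≤ k) {n : ℕ} (hn : k * k ≤ n) : ∃ F : CNF n, IsKCNF k F ∧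
    Unsat F ∧ ∀ (N : ℕ) (π : Refutation F N),
      (∀ ρ : ℝ, 0 ≤ ρ → Repeats π (ρ * n) → (2 : ℝ) ^ ((1 - eps k ρ) * n) ≤ N) ∧
      (∀ r h : ℕ, 1 ≤ r → Pieces π r h → ∀ κ : ℝ, 0 < κ → κ ≤ 1 →
        (2 : ℝ) ^ n * κ ^ ((h : ℝ) + r * (delta k * n)) ≤ N * (1 + κ) ^ n) := by
  classical
  have hkpos : 0 < k := by omega
  have hkR : (0 : ℝ) < k := by exact_mod_cast hkpos
  obtain ⟨ℓ, hℓ⟩ : ∃ ℓ, ℓ = Nat.log 2 k + 1 := ⟨_, rfl⟩
  have hk2 : k < 2 ^ ℓ := by
    rw [hℓ]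
    exact Nat.lt_pow_succ_log_self (by norm_num) k
  have hk1' : 2 ^ (ℓ - 1) ≤ k := by
    rw [hℓ, Nat.add_sub_cancel]
    exact Nat.pow_log_le_self 2 hkpos.ne'
  have hℓ21 : 21 ≤ ℓ := by
    have : 2 ^ 20 < 2 ^ ℓ := lt_of_le_of_lt hk hk2
    have := (Nat.pow_lt_pow_iff_right (by norm_num : 1 < 2)).1 this
    omega
  have hk1 : 2 ^ ℓ ≤ 2 * k := by
    have : 2 ^ ℓ = 2 * 2 ^ (ℓ - 1) := by
      rw [← pow_succ']
      congr 1
      omega
    omega
  obtain ⟨M, P, hPk, hPw, hF, hC, hbad⟩ := exists_sys_params hℓ21 hk1 hk2 hn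
  set m := n / k with hm
  have hmk : k ≤ m := by
    rw [hm, Nat.le_div_iff_mul_le hkpos]
    exact hn
  have hmpos : 0 < m := by omega
  have hmR : (m : ℝ) ≤ n / k := by
    rw [hm]
    exact Nat.cast_div_le
  have hmR1 : (1 : ℝ) ≤ m := by exact_mod_cast hmpos
  have hℓR : (21 : ℝ) ≤ ℓ := by exact_mod_cast hℓ21
  have hnpos : 0 < n := by
    have : 0 < k * k := Nat.mul_pos hkpos hkpos
    omega
  have hnR : (0 : ℝ) < n := by exact_mod_cast hnpos
  -- the logarithm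
  set Lg := Real.logb 2 k with hLg
  have hLg1 : (ℓ : ℝ) - 1 ≤ Lg := by
    have h1 := logb_ge hkpos hk1'
    rwa [Nat.cast_sub (by omega), Nat.cast_one, ← hLg] at h1
  have hLg2 : 20 / 21 * (ℓ : ℝ) ≤ Lg := by linarith
  set w := 4 * (5 * ℓ) * (2 * ℓ) with hw
  set p := ℓ * m with hp
  set u := (5 * (ℓ * (2 * ℓ + 1)) + 1) * m with hu
  have hppos : 0 < p := Nat.mul_pos (by omega) hmpos
  have hwp : ((w * p : ℕ) : ℝ) = 40 * (ℓ : ℝ) ^ 3 * m := by
    rw [hw, hp]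
    push_cast
    ring
  have hbud : ((w * p + u + 1 : ℕ) : ℝ) ≤ 41 * (ℓ : ℝ) ^ 3 * m := by
    have h0 : ((w * p + u + 1 : ℕ) : ℝ) = 40 * (ℓ : ℝ) ^ 3 * m +
        (5 * (ℓ * (2 * ℓ + 1)) + 1) * m + 1 := by
      rw [Nat.cast_add, Nat.cast_add, hwp, hu]
      push_cast
      ring
    rw [h0]
    exact aux_bud hℓR hmR1
  set s0 := w * p + u with hs0
  have hs0R : (s0 : ℝ) + 1 ≤ 41 * (ℓ : ℝ) ^ 3 * m := by
    have : ((s0 + 1 : ℕ) : ℝ) ≤ 41 * (ℓ : ℝ) ^ 3 * m := hbud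
    exact_mod_cast this
  have hwps0 : ((w * p : ℕ) : ℝ) ≤ s0 := by exact_mod_cast (by omega : w * p ≤ s0)
  have hwp0 : (0 : ℝ) ≤ ((w * p : ℕ) : ℝ) := Nat.cast_nonneg _
  have hlm : 0 ≤ (ℓ : ℝ) ^ 3 * m := by positivity
  refine ⟨P.cnf, cnf_kcnf hPk, cnf_unsat hbad, fun N π => ⟨?_, ?_⟩⟩
  · -- repetitions
    intro ρ hρ hrep
    have hN1 : (1 : ℝ) ≤ N := by
      have := π.root.2
      exact_mod_cast (by omega : 1 ≤ N)
    have hρn : 0 ≤ ρ * n := by positivity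
    set s := √(ρ * n * ((w * p : ℕ) : ℝ)) with hs
    have hs00 : 0 ≤ s := Real.sqrt_nonneg _
    have hs2 : s * s = ρ * n * ((w * p : ℕ) : ℝ) := Real.mul_self_sqrt (by positivity)
    set h := s0 + ⌊s⌋₊ with hh
    have hhR : (h : ℝ) = (s0 : ℝ) + (⌊s⌋₊ : ℝ) := by exact_mod_cast hh
    have hhs : (h : ℝ) ≤ s0 + s := by
      linarith [Nat.floor_le hs00]
    have hsh : s0 + s < (h : ℝ) + 1 := by
      linarith [Nat.lt_floor_add_one s]
    have hh1 : (0 : ℝ) < (h : ℝ) + 1 := by positivity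
    set q := 1 + ⌊(ρ * n + s0) / (h + 1)⌋₊ with hq
    have hqn : 0 ≤ (ρ * n + s0) / ((h : ℝ) + 1) := by positivity
    have hsize := size_bound hF hC (by rw [hp, mul_assoc]) hppos hPw π (h := h) (q := q)
      (fun v B hB hbig hfirst => by
        rcases eq_or_ne B [] with rfl | hne
        · simp
        · have h1 := length_blocks hbig hfirst hne
          have h2 := hrep v _ hB
          have h3 : (((n : ℕ) + (B.length - 1) * (h + 1) : ℕ) : ℝ) ≤
              ((B.flatten.length + s0 : ℕ) : ℝ) := by exact_mod_cast h1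
          have h4 : ((B.flatten.toFinset.card : ℕ) : ℝ) ≤ n := by
            have := card_le_univ B.flatten.toFinset
            rw [Fintype.card_fin] at this
            exact_mod_cast this
          have h5 : B.length - 1 ≤ ⌊(ρ * n + s0) / ((h : ℝ) + 1)⌋₊ := by
            apply Nat.le_floor
            rw [le_div_iff₀ hh1]
            have h6 : (n : ℝ) + ((B.length - 1 : ℕ) : ℝ) * ((h : ℝ) + 1) ≤
                (B.flatten.length : ℝ) + (s0 : ℝ) := by exact_mod_cast h3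
            linarith
          omega) (κ := 1 / 2 ^ ℓ) (by positivity) (by
            rw [div_le_one (by positivity)]
            exact one_le_pow₀ (by norm_num))
    set T := h + 1 + w * p + u + q * (w * p) with hT
    have hqwp : (q : ℝ) * ((w * p : ℕ) : ℝ) ≤ ((w * p : ℕ) : ℝ) + s := by
      rcases le_or_gt s ((w * p : ℕ) : ℝ) with hsw | hsw
      · have h1 : ρ * n ≤ s := by
          by_contra hcon
          push Not at hcon
          have h2 : 0 < ρ * n := hs00.trans_lt hcon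
          have h3 : ρ * n * s ≤ ρ * n * ((w * p : ℕ) : ℝ) := mul_le_mul_of_nonneg_left hsw h2.le
          rw [← hs2] at h3
          rcases hs00.eq_or_lt with h4 | h4
          · have h5 : ((w * p : ℕ) : ℝ) = 0 := by
              have h6 : ρ * n * ((w * p : ℕ) : ℝ) = 0 := by rw [← hs2, ← h4, mul_zero]
              rcases mul_eq_zero.1 h6 with h7 | h7
              · exact absurd h7 h2.ne'
              · exact h7
            have h6 : 0 < w * p := Nat.mul_pos (by rw [hw]; positivity) hppos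
            have h7 : (0 : ℝ) < ((w * p : ℕ) : ℝ) := by exact_mod_cast h6
            linarith
          · have := le_of_mul_le_mul_right h3 h4
            linarith
        have h2 : ⌊(ρ * n + s0) / ((h : ℝ) + 1)⌋₊ = 0 := by
          rw [Nat.floor_eq_zero, div_lt_one hh1]
          linarith
        rw [hq, h2]
        push_cast
        linarith
      · have h1 : (q : ℝ) ≤ 1 + (ρ * n + s0) / (h + 1) := by
          rw [hq, Nat.cast_add, Nat.cast_one]
          linarith [Nat.floor_le hqn]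
        have h2 : (ρ * n + s0) / ((h : ℝ) + 1) * ((w * p : ℕ) : ℝ) ≤ s := by
          rw [div_mul_eq_mul_div, div_le_iff₀ hh1]
          exact aux_q hs00 (Nat.cast_nonneg _) hs2 hsw hsh
        calc (q : ℝ) * ((w * p : ℕ) : ℝ) ≤ (1 + (ρ * n + s0) / (h + 1)) * ((w * p : ℕ) : ℝ) :=
              mul_le_mul_of_nonneg_right h1 hwp0
          _ = ((w * p : ℕ) : ℝ) + (ρ * n + s0) / ((h : ℝ) + 1) * ((w * p : ℕ) : ℝ) := by ring
          _ ≤ ((w * p : ℕ) : ℝ) + s := by linarith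
    have hTle : (T : ℝ) ≤ 2 * s + 123 * ((ℓ : ℝ) ^ 3 * m) := by
      have h1 : (T : ℝ) = h + 1 + s0 + q * ((w * p : ℕ) : ℝ) := by
        rw [hT, hs0]
        push_cast
        ring
      rw [h1]
      linarith
    -- the quantity `y`
    set y := √(ρ * (ℓ : ℝ) ^ 3 / k) with hy
    have hy0 : 0 ≤ y := Real.sqrt_nonneg _
    have hy2 : y ^ 2 = ρ * (ℓ : ℝ) ^ 3 / k := Real.sq_sqrt (by positivity)
    have hsy : s ≤ 633 / 100 * (n * y) := by
      rw [hs]
      apply Real.sqrt_le_iff.2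
      refine ⟨by positivity, ?_⟩
      calc ρ * n * ((w * p : ℕ) : ℝ) = 40 * (ρ * (ℓ : ℝ) ^ 3) * n * m := by rw [hwp]; ring
        _ ≤ 40 * (ρ * (ℓ : ℝ) ^ 3) * n * (n / k) := by gcongr
        _ = 40 * n ^ 2 * y ^ 2 := by rw [hy2]; ring
        _ ≤ (633 / 100 * (n * y)) ^ 2 := aux_sy
    have hE2 : 1266 / 100 * ((ℓ : ℝ) * y) ≤ 15 * √(ρ * Lg ^ 5 / k) := by
      have h1 : 885 / 1000 * ((ℓ : ℝ) * y) ≤ √(ρ * Lg ^ 5 / k) := by
        apply Real.le_sqrt_of_sq_le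
        have h2 : (885 / 1000 * ((ℓ : ℝ) * y)) ^ 2 = (885 / 1000) ^ 2 * (ρ * (ℓ : ℝ) ^ 5 / k) := by
          rw [mul_pow, mul_pow, hy2]
          ring
        rw [h2]
        have h3 : (885 / 1000 : ℝ) ^ 2 * (ℓ : ℝ) ^ 5 ≤ Lg ^ 5 := by
          calc (885 / 1000 : ℝ) ^ 2 * (ℓ : ℝ) ^ 5 ≤ (20 / 21) ^ 5 * (ℓ : ℝ) ^ 5 := by
                gcongr
                norm_num
            _ = (20 / 21 * (ℓ : ℝ)) ^ 5 := by ring
            _ ≤ Lg ^ 5 := by gcongr
        calc (885 / 1000 : ℝ) ^ 2 * (ρ * (ℓ : ℝ) ^ 5 / k) =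
              ρ * ((885 / 1000) ^ 2 * (ℓ : ℝ) ^ 5) / k := by ring
          _ ≤ ρ * Lg ^ 5 / k := by gcongr
      have h2 : 0 ≤ (ℓ : ℝ) * y := by positivity
      linarith
    have hE1 : 123 * ((ℓ : ℝ) * ((ℓ : ℝ) ^ 3 * m)) + 3 / 2 * (1 / 2 ^ ℓ) * n ≤
        150 * Lg ^ 4 / k * n := by
      have h1 : (1 : ℝ) / 2 ^ ℓ ≤ 1 / k := by
        apply one_div_le_one_div_of_le hkR
        exact_mod_cast hk2.le
      have h2 : 123 * ((ℓ : ℝ) * ((ℓ : ℝ) ^ 3 * m)) ≤ 123 * (ℓ : ℝ) ^ 4 * (n / k) := by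
        calc 123 * ((ℓ : ℝ) * ((ℓ : ℝ) ^ 3 * m)) = 123 * (ℓ : ℝ) ^ 4 * m := by ring
          _ ≤ 123 * (ℓ : ℝ) ^ 4 * (n / k) := by gcongr
      have h3 : 3 / 2 * (1 / 2 ^ ℓ) * n ≤ 3 / 2 * ((n : ℝ) / k) := by
        calc 3 / 2 * (1 / 2 ^ ℓ) * n ≤ 3 / 2 * (1 / k) * (n : ℝ) := by gcongr
          _ = 3 / 2 * ((n : ℝ) / k) := by ring
      have h4 : (123 : ℝ) * (ℓ : ℝ) ^ 4 + 3 / 2 ≤ 150 * Lg ^ 4 := by
        have h5 : (20 / 21 * (ℓ : ℝ)) ^ 4 ≤ Lg ^ 4 := by gcongr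
        have h6 : (21 : ℝ) ^ 4 ≤ (ℓ : ℝ) ^ 4 := by gcongr
        have h7 : (20 / 21 * (ℓ : ℝ)) ^ 4 = 160000 / 194481 * (ℓ : ℝ) ^ 4 := by ring
        rw [h7] at h5
        norm_num at h6
        linarith
      have h5 : 0 ≤ (n : ℝ) / k := by positivity
      calc 123 * ((ℓ : ℝ) * ((ℓ : ℝ) ^ 3 * m)) + 3 / 2 * (1 / 2 ^ ℓ) * n ≤
            (123 * (ℓ : ℝ) ^ 4 + 3 / 2) * (n / k) := by linarith
        _ ≤ 150 * Lg ^ 4 * (n / k) := mul_le_mul_of_nonneg_right h4 h5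
        _ = 150 * Lg ^ 4 / k * n := by ring
    have harith := arith hnR.le hℓR hsy hTle hE2 hE1
    -- the end
    have hone : (1 + 1 / 2 ^ ℓ : ℝ) ^ n ≤ (2 : ℝ) ^ (3 / 2 * (1 / 2 ^ ℓ) * n : ℝ) := aux_one
    have hkap : (1 / 2 ^ ℓ : ℝ) ^ T = (2 : ℝ) ^ (-((ℓ : ℝ) * T)) := by
      rw [one_div, inv_pow, ← pow_mul, Real.rpow_neg (by norm_num)]
      congr 1
      rw [← Real.rpow_natCast]
      push_cast
      ring_nf
    rw [hkap] at hsize
    have hfin : (2 : ℝ) ^ ((n : ℝ) - ℓ * T) ≤ N * (2 : ℝ) ^ (3 / 2 * (1 / 2 ^ ℓ) * n : ℝ) := by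
      have h1 : (2 : ℝ) ^ ((n : ℝ) - ℓ * T) = (2 : ℝ) ^ n * (2 : ℝ) ^ (-((ℓ : ℝ) * T)) := by
        rw [← Real.rpow_natCast, ← Real.rpow_add (by norm_num)]
        congr 1
      rw [h1]
      refine hsize.trans ?_
      gcongr
    have h2 : (2 : ℝ) ^ ((1 - eps k ρ) * n) * (2 : ℝ) ^ (3 / 2 * (1 / 2 ^ ℓ) * n : ℝ) ≤
        (2 : ℝ) ^ ((n : ℝ) - ℓ * T) := by
      rw [← Real.rpow_add (by norm_num)]
      apply Real.rpow_le_rpow_of_exponent_le (by norm_num)
      unfold eps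
      rw [← hLg]
      linarith
    have h3 : (0 : ℝ) < (2 : ℝ) ^ (3 / 2 * (1 / 2 ^ ℓ) * n : ℝ) := by positivity
    exact le_of_mul_le_mul_right (h2.trans hfin) h3
  · -- pieces
    intro r h hr hpieces κ hκ hκ1
    have hsize := size_bound hF hC (by rw [hp, mul_assoc]) hppos hPw π (h := h + s0) (q := r)
      (fun v B hB hbig hfirst => Cut.blocks hr (hpieces v _ hB) hbig hfirst) hκ hκ1
    refine le_trans ?_ hsize
    refine mul_le_mul_of_nonneg_left ?_ (by positivity)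
    rw [← Real.rpow_natCast κ]
    apply Real.rpow_le_rpow_of_exponent_ge hκ hκ1
    have hrR : (1 : ℝ) ≤ r := by exact_mod_cast hr
    have h1 : ((h + s0 + 1 + w * p + u + r * (w * p) : ℕ) : ℝ) =
        h + (s0 + 1) + s0 + r * ((w * p : ℕ) : ℝ) := by
      rw [hs0]
      push_cast
      ring
    rw [h1]
    have h2 : (s0 + 1 : ℝ) + s0 + r * ((w * p : ℕ) : ℝ) ≤ r * (123 * ((ℓ : ℝ) ^ 3 * m)) := by
      have h3 : (r : ℝ) * ((w * p : ℕ) : ℝ) ≤ r * (41 * ((ℓ : ℝ) ^ 3 * m)) := by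
        apply mul_le_mul_of_nonneg_left _ (by linarith)
        linarith
      have h4 : (82 * ((ℓ : ℝ) ^ 3 * m)) ≤ r * (82 * ((ℓ : ℝ) ^ 3 * m)) :=
        le_mul_of_one_le_left (by linarith) hrR
      linarith
    have h5 : 123 * ((ℓ : ℝ) ^ 3 * m) ≤ delta k * n := by
      unfold delta
      rw [← hLg]
      have h6 : (ℓ : ℝ) ≤ 21 / 20 * Lg := by linarith
      have h7 : 0 ≤ Lg := by linarith
      calc 123 * ((ℓ : ℝ) ^ 3 * m) ≤ 123 * ((21 / 20 * Lg) ^ 3 * (n / k)) := by gcongr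
        _ = 123 * (21 / 20) ^ 3 * (Lg ^ 3 * (n / k)) := by ring
        _ ≤ 160 * (Lg ^ 3 * (n / k)) := by
            gcongr
            norm_num
        _ = 160 * Lg ^ 3 / k * n := by ring
    have h8 : (r : ℝ) * (123 * ((ℓ : ℝ) ^ 3 * m)) ≤ r * (delta k * n) := by gcongr
    linarith

/-- For all `k ≥ 2` and `n ≥ k²` there is an unsatisfiable `k`-CNF formula on `n` variables such that
for every resolution refutation with `N` clauses:
* if on each path from the root at most `ρ n` steps resolve on a variable resolved on before on this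
  path, then `N ≥ 2 ^ ((1 - ε) n)` with `ε = 150 (log₂ k)⁴ / k + 15 √(ρ (log₂ k)⁵ / k)`;
* if every path from the root can be cut into at most `r` consecutive pieces in each of which at most
  `h` distinct variables are resolved on again, then `N (1 + κ) ^ n ≥ 2 ^ n κ ^ (h + r δ n)` for all
  `κ ∈ (0, 1]`, where `δ = 160 (log₂ k)³ / k`. -/
theorem result : ∀ k : ℕ, 2 ≤ k → ∀ n : ℕ, k * k ≤ n → ∃ F : CNF n, IsKCNF k F ∧ Unsat F ∧
    ∀ (N : ℕ) (π : Refutation F N),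
      (∀ ρ : ℝ, 0 ≤ ρ → Repeats π (ρ * n) → (2 : ℝ) ^ ((1 - eps k ρ) * n) ≤ N) ∧
      (∀ r h : ℕ, 1 ≤ r → Pieces π r h → ∀ κ : ℝ, 0 < κ → κ ≤ 1 →
        (2 : ℝ) ^ n * κ ^ ((h : ℝ) + r * (delta k * n)) ≤ N * (1 + κ) ^ n) := by
  intro k hk2 n hn
  rcases lt_or_ge k (2 ^ 20) with hk | hk
  · obtain ⟨n', rfl⟩ : ∃ n', n = n' + 1 := ⟨n - 1, by
      have := Nat.mul_le_mul hk2 hk2
      omega⟩
    refine ⟨{{(0, true)}, {(0, false)}}, ?_, ?_, ?_⟩
    · intro C hC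
      rw [mem_insert, mem_singleton] at hC
      rcases hC with rfl | rfl <;> simp <;> omega
    · intro x
      cases hx : x 0
      · exact ⟨{(0, true)}, by simp, by simp [Satisfies, hx]⟩
      · exact ⟨{(0, false)}, by simp, by simp [Satisfies, hx]⟩
    · intro N π
      have hN1 : (1 : ℝ) ≤ N := by
        have := π.root.2
        exact_mod_cast (by omega : 1 ≤ N)
      refine ⟨fun ρ _ _ => ?_, fun r h hr _ κ hκ hκ1 => ?_⟩
      · refine le_trans ?_ hN1
        apply Real.rpow_le_one_of_one_le_of_nonpos (by norm_num)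
        have := eps_ge hk2 hk ρ
        exact mul_nonpos_of_nonpos_of_nonneg (by linarith) (Nat.cast_nonneg _)
      · have hδ := delta_ge hk2 hk
        have hrR : (1 : ℝ) ≤ r := by exact_mod_cast hr
        have hnn : (0 : ℝ) ≤ ((n' + 1 : ℕ) : ℝ) := Nat.cast_nonneg _
        have h1 : κ ^ ((h : ℝ) + r * (delta k * ((n' + 1 : ℕ) : ℝ))) ≤ κ ^ (n' + 1) := by
          rw [← Real.rpow_natCast κ]
          apply Real.rpow_le_rpow_of_exponent_ge hκ hκ1
          have h2 : ((n' + 1 : ℕ) : ℝ) ≤ delta k * ((n' + 1 : ℕ) : ℝ) :=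
            le_mul_of_one_le_left hnn hδ
          have h3 : delta k * ((n' + 1 : ℕ) : ℝ) ≤ r * (delta k * ((n' + 1 : ℕ) : ℝ)) :=
            le_mul_of_one_le_left (hnn.trans h2) hrR
          have h4 : (0 : ℝ) ≤ h := Nat.cast_nonneg _
          linarith
        calc (2 : ℝ) ^ (n' + 1) * κ ^ ((h : ℝ) + r * (delta k * ((n' + 1 : ℕ) : ℝ)))
            ≤ (2 : ℝ) ^ (n' + 1) * κ ^ (n' + 1) := by gcongr
          _ = (2 * κ) ^ (n' + 1) := by rw [mul_pow]
          _ ≤ (1 + κ) ^ (n' + 1) := by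
              apply pow_le_pow_left₀ (by positivity)
              linarith
          _ ≤ N * (1 + κ) ^ (n' + 1) := le_mul_of_one_le_left (by positivity) hN1
  · exact main hk hn

end Pool.Agent.H13.Old.LinearDepthSETH
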